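import Pool.Agent.Y493.Br.Stm

set_option autoImplicit false

/-!
The smooth functions on an open subset of Euclidean three space, with three smooth vector
fields, form a differential algebra; transfer of pointwise structure equations.
-/

namespace Pool.Agent.Y681.BR

open Y493.Br
open scoped BigOperators

abbrev Sm : WithTop ℕ∞ := ((⊤ : ℕ∞) : WithTop ℕ∞)

open Classical in
/-- extension by zero -/
noncomputable def ex {V : Set E3} (a : V → ℝ) : E3 → ℝ :=
  fun x => if h : x ∈ V then a ⟨x, h⟩ else 0

theorem ex_mem {V : Set E3} (a : V → ℝ) {x : E3} (h : x ∈ V) : ex a x = a ⟨x, h⟩ := by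
  unfold ex
  rw [dif_pos h]

theorem ex_restr {V : Set E3} (g : E3 → ℝ) {x : E3} (h : x ∈ V) :
    ex (fun y : V => g y) x = g x := by
  rw [ex_mem _ h]

/-- the algebra of smooth functions on `V` -/
noncomputable def SA (V : Set E3) : Subalgebra ℝ (V → ℝ) where
  carrier := {a | ContDiffOn ℝ Sm (ex a) V}
  mul_mem' := by
    intro a b ha hb
    refine ContDiffOn.congr (ContDiffOn.mul ha hb) ?_
    intro x hx
    simp only [ex_mem _ hx, Pi.mul_apply]
  add_mem' := by
    intro a b ha hb
    refine ContDiffOn.congr (ContDiffOn.add ha hb) ?_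
    intro x hx
    simp only [ex_mem _ hx, Pi.add_apply]
  algebraMap_mem' := by
    intro r
    refine ContDiffOn.congr (contDiffOn_const (c := r)) ?_
    intro x hx
    simp only [ex_mem _ hx]
    rfl

theorem SA_diffAt {V : Set E3} (hV : IsOpen V) (a : SA V) {x : E3} (hx : x ∈ V) :
    DifferentiableAt ℝ (ex a.1) x :=
  ((a.2 : ContDiffOn ℝ Sm (ex a.1) V).contDiffAt (hV.mem_nhds hx)).differentiableAt (by simp)

theorem fderiv_ex_congr {V : Set E3} (hV : IsOpen V) {g h : E3 → ℝ} (hgh : ∀ x ∈ V, g x = h x)
    {x : E3} (hx : x ∈ V) : fderiv ℝ g x = fderiv ℝ h x := by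
  refine Filter.EventuallyEq.fderiv_eq ?_
  filter_upwards [hV.mem_nhds hx] with y hy using hgh y hy

theorem smooth_dir {V : Set E3} (hV : IsOpen V) {X : E3 → E3} (hX : ContDiffOn ℝ Sm X V)
    {g : E3 → ℝ} (hg : ContDiffOn ℝ Sm g V) :
    ContDiffOn ℝ Sm (fun x => fderiv ℝ g x (X x)) V := by
  have h1 : ContDiffOn ℝ Sm (fderiv ℝ g) V :=
    hg.fderiv_of_isOpen hV (by simp)
  exact h1.clm_apply hX

/-- the derivation given by a smooth vector field -/
noncomputable def der {V : Set E3} (hV : IsOpen V) {X : E3 → E3} (hX : ContDiffOn ℝ Sm X V) :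
    Derivation ℝ (SA V) (SA V) :=
  Derivation.mk'
    { toFun := fun a => ⟨fun x => fderiv ℝ (ex a.1) x (X x), by
        have h := smooth_dir hV hX a.2
        refine ContDiffOn.congr h ?_
        intro x hx
        rw [ex_mem _ hx]⟩
      map_add' := by
        intro a b
        apply Subtype.ext
        funext x
        have e : fderiv ℝ (ex (a + b).1) x = fderiv ℝ (ex a.1 + ex b.1) x := by
          refine fderiv_ex_congr hV ?_ x.2
          intro y hy
          simp only [ex_mem _ hy, Pi.add_apply]
          rfl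
        have e2 : fderiv ℝ (ex a.1 + ex b.1) x = fderiv ℝ (ex a.1) x + fderiv ℝ (ex b.1) x :=
          fderiv_add (SA_diffAt hV a x.2) (SA_diffAt hV b x.2)
        show fderiv ℝ (ex (a + b).1) x (X x) = fderiv ℝ (ex a.1) x (X x) + fderiv ℝ (ex b.1) x (X x)
        rw [e, e2]
        rfl
      map_smul' := by
        intro r a
        apply Subtype.ext
        funext x
        have e : fderiv ℝ (ex (r • a).1) x = fderiv ℝ (r • ex a.1) x := by
          refine fderiv_ex_congr hV ?_ x.2
          intro y hy
          simp only [ex_mem _ hy, Pi.smul_apply]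
          rfl
        have e2 : fderiv ℝ (r • ex a.1) x = r • fderiv ℝ (ex a.1) x :=
          fderiv_const_smul (SA_diffAt hV a x.2) r
        show fderiv ℝ (ex (r • a).1) x (X x) = r • (fderiv ℝ (ex a.1) x (X x))
        rw [e, e2]
        rfl }
    (by
      intro a b
      apply Subtype.ext
      funext x
      have e : fderiv ℝ (ex (a * b).1) x = fderiv ℝ (ex a.1 * ex b.1) x := by
        refine fderiv_ex_congr hV ?_ x.2
        intro y hy
        simp only [ex_mem _ hy, Pi.mul_apply]
        rfl
      have e2 : fderiv ℝ (ex a.1 * ex b.1) x =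
          ex a.1 x • fderiv ℝ (ex b.1) x + ex b.1 x • fderiv ℝ (ex a.1) x :=
        fderiv_mul (SA_diffAt hV a x.2) (SA_diffAt hV b x.2)
      show fderiv ℝ (ex (a * b).1) x (X x) =
        a.1 x * fderiv ℝ (ex b.1) x (X x) + b.1 x * fderiv ℝ (ex a.1) x (X x)
      rw [e, e2]
      simp only [ex_mem _ x.2]
      rfl)

theorem der_apply {V : Set E3} (hV : IsOpen V) {X : E3 → E3} (hX : ContDiffOn ℝ Sm X V)
    (a : SA V) (x : V) : (der hV hX a).1 x = fderiv ℝ (ex a.1) x (X x) := rfl

/-- restriction of a smooth function -/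
noncomputable def rs {V : Set E3} (g : E3 → ℝ) (hg : ContDiffOn ℝ Sm g V) : SA V :=
  ⟨fun x => g x, by
    refine ContDiffOn.congr hg ?_
    intro x hx
    rw [ex_mem _ hx]⟩

theorem rs_apply {V : Set E3} (g : E3 → ℝ) (hg : ContDiffOn ℝ Sm g V) (x : V) :
    (rs g hg).1 x = g x := rfl

theorem ex_rs {V : Set E3} (g : E3 → ℝ) (hg : ContDiffOn ℝ Sm g V) {x : E3} (hx : x ∈ V) :
    ex (rs g hg).1 x = g x := by
  rw [ex_mem _ hx]; rfl

theorem der_rs {V : Set E3} (hV : IsOpen V) {X : E3 → E3} (hX : ContDiffOn ℝ Sm X V)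
    (g : E3 → ℝ) (hg : ContDiffOn ℝ Sm g V) (x : V) :
    (der hV hX (rs g hg)).1 x = dv X g x := by
  rw [der_apply]
  unfold dv
  rw [fderiv_ex_congr hV (fun y hy => ex_rs g hg hy) x.2]

theorem der_eq_dv {V : Set E3} (hV : IsOpen V) {X : E3 → E3} (hX : ContDiffOn ℝ Sm X V)
    (a : SA V) (x : V) : (der hV hX a).1 x = dv X (ex a.1) x := rfl

theorem ex_der {V : Set E3} (hV : IsOpen V) {X : E3 → E3} (hX : ContDiffOn ℝ Sm X V)
    (a : SA V) {x : E3} (hx : x ∈ V) : ex (der hV hX a).1 x = dv X (ex a.1) x := by
  rw [ex_mem _ hx]; rfl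

theorem dv_congr {V : Set E3} (hV : IsOpen V) {g h : E3 → ℝ} (hgh : ∀ x ∈ V, g x = h x)
    (X : E3 → E3) {x : E3} (hx : x ∈ V) : dv X g x = dv X h x := by
  unfold dv
  rw [fderiv_ex_congr hV hgh hx]

theorem sum_apply' {V : Set E3} (F : Fin 3 → SA V) (x : V) :
    (∑ k, F k : SA V).1 x = ∑ k, (F k).1 x := by
  simp [Fin.sum_univ_three]

theorem g3 : StG3 := by
  intro hA V c E lam G hV hE hlam h21 h10 hs0 hsq hS x hx hpos k
  have hd : ∀ i j : Fin 3, ∀ (s : ℝ), (∀ y ∈ V, s * (lam i y - lam j y) > 0) →
      ContDiffOn ℝ Sm (fun y => (lam i y - lam j y)⁻¹) V := by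
    intro i j s hs
    refine ContDiffOn.inv ((hlam i).sub (hlam j)) ?_
    intro y hy h0
    have := hs y hy
    rw [h0] at this
    simp at this
  let D : DA (SA V) :=
    { e := fun i => der hV (hE i)
      lam := fun i => rs (lam i) (hlam i)
      G := fun i j k => rs (G i j k) (hS.smG i j k)
      c := c
      iD := ![rs (fun y => (lam 1 y - lam 2 y)⁻¹) (hd 1 2 1 (by
                intro y hy; have := h21 y hy; linarith)),
              rs (fun y => (lam 2 y - lam 0 y)⁻¹) (hd 2 0 (-1) (by
                intro y hy; have := h21 y hy; have := h10 y hy; linarith)),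
              rs (fun y => (lam 0 y - lam 1 y)⁻¹) (hd 0 1 1 (by
                intro y hy; have := h10 y hy; linarith))]
      sum0 := by
        apply Subtype.ext
        funext y
        exact hs0 y y.2
      sumsq := by
        apply Subtype.ext
        funext y
        exact hsq y y.2
      inv0 := by
        apply Subtype.ext
        funext y
        show (lam 1 y - lam 2 y)⁻¹ * (lam 1 y - lam 2 y) = 1
        have := h21 y y.2
        exact inv_mul_cancel₀ (sub_pos.mpr this).ne'
      inv1 := by
        apply Subtype.ext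
        funext y
        show (lam 2 y - lam 0 y)⁻¹ * (lam 2 y - lam 0 y) = 1
        have h1 := h21 y y.2
        have h2 := h10 y y.2
        exact inv_mul_cancel₀ (sub_neg.mpr (h1.trans h2)).ne
      inv2 := by
        apply Subtype.ext
        funext y
        show (lam 0 y - lam 1 y)⁻¹ * (lam 0 y - lam 1 y) = 1
        have := h10 y y.2
        exact inv_mul_cancel₀ (sub_pos.mpr this).ne'
      anti := by
        intro i j k
        apply Subtype.ext
        funext y
        exact hS.anti y y.2 i j k
      tors := by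
        intro i j g
        apply Subtype.ext
        funext y
        have h := hS.tors (ex g.1) g.2 y y.2 i j
        have e1 : dv (E i) (ex (der hV (hE j) g).1) y = dv (E i) (dv (E j) (ex g.1)) y :=
          dv_congr hV (fun z hz => ex_der hV (hE j) g hz) (E i) y.2
        have e2 : dv (E j) (ex (der hV (hE i) g).1) y = dv (E j) (dv (E i) (ex g.1)) y :=
          dv_congr hV (fun z hz => ex_der hV (hE i) g hz) (E j) y.2
        rw [sum_apply']
        show dv (E i) (ex (der hV (hE j) g).1) y - dv (E j) (ex (der hV (hE i) g).1) y = _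
        rw [e1, e2, h]
        rfl
      cod := by
        intro i j k
        apply Subtype.ext
        funext y
        have h := hS.cod y y.2 i j k
        have e1 : ((if j = k then der hV (hE i) (rs (lam j) (hlam j)) else 0 : SA V)).1 y =
            if j = k then dv (E i) (lam j) y else 0 := by
          split_ifs
          · exact der_rs hV (hE i) _ _ y
          · rfl
        have e2 : ((if i = k then der hV (hE j) (rs (lam i) (hlam i)) else 0 : SA V)).1 y =
            if i = k then dv (E j) (lam i) y else 0 := by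
          split_ifs
          · exact der_rs hV (hE j) _ _ y
          · rfl
        show ((if j = k then der hV (hE i) (rs (lam j) (hlam j)) else 0 : SA V)).1 y +
            (lam j y - lam k y) * G i j k y =
          ((if i = k then der hV (hE j) (rs (lam i) (hlam i)) else 0 : SA V)).1 y +
            (lam i y - lam k y) * G j i k y
        rw [e1, e2, h]
      gauss := by
        intro i j k l
        apply Subtype.ext
        funext y
        have h := hS.gauss y y.2 i j k l
        have e1 : (der hV (hE i) (rs (G j k l) (hS.smG j k l))).1 y = dv (E i) (G j k l) y :=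
          der_rs hV (hE i) _ _ y
        have e2 : (der hV (hE j) (rs (G i k l) (hS.smG i k l))).1 y = dv (E j) (G i k l) y :=
          der_rs hV (hE j) _ _ y
        have e3 : (((if j = k ∧ i = l then 1 else 0) - (if i = k ∧ j = l then 1 else 0) : SA V)).1 y
            = (if j = k ∧ i = l then (1 : ℝ) else 0) - (if i = k ∧ j = l then 1 else 0) := by
          split_ifs <;> rfl
        show (der hV (hE i) (rs (G j k l) (hS.smG j k l))).1 y
            - (der hV (hE j) (rs (G i k l) (hS.smG i k l))).1 y
            + (∑ m, (rs (G j k m) (hS.smG j k m) * rs (G i m l) (hS.smG i m l)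
                - rs (G i k m) (hS.smG i k m) * rs (G j m l) (hS.smG j m l)) : SA V).1 y
            - (∑ m, (rs (G i j m) (hS.smG i j m) - rs (G j i m) (hS.smG j i m))
                * rs (G m k l) (hS.smG m k l) : SA V).1 y
          = (1 + lam i y * lam j y) *
            (((if j = k ∧ i = l then 1 else 0) - (if i = k ∧ j = l then 1 else 0) : SA V)).1 y
        rw [e1, e2, e3, sum_apply', sum_apply', ← h]
        rfl }
  let ev : SA V →ₐ[ℝ] ℝ := (Pi.evalAlgHom ℝ (fun _ : V => ℝ) ⟨x, hx⟩).comp (SA V).val
  have h := hA (SA V) D ev (h21 x hx) (h10 x hx) hpos k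
  have e : ev (D.e k (D.lam 1)) = dv (E k) (lam 1) x := der_rs hV (hE k) (lam 1) (hlam 1) ⟨x, hx⟩
  rw [e] at h
  exact h

end Pool.Agent.Y681.BR
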